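import Pool.Agent.Q278.VE

set_option autoImplicit false

namespace Pool.Agent.Results.MP_781342_nt.Full

open Finset Polynomial

/-- The indeterminate `q`. -/
noncomputable abbrev q : RatFunc ℚ := RatFunc.X

/-- The `q`-shifted factorial `(a; Q)_k`. -/
noncomputable def poch (a Q : RatFunc ℚ) (k : ℕ) : RatFunc ℚ := ∏ j ∈ range k, (1 - a * Q ^ j)

/-- The central Gaussian binomial coefficient `(q; q)_{2k} / (q; q)_k ^ 2`. -/
noncomputable def cb (k : ℕ) : RatFunc ℚ := poch q q (2 * k) / poch q q k ^ 2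

/-- `L_n(q)`. -/
noncomputable def L (n : ℕ) : RatFunc ℚ := ∑ k ∈ range n, cb k * (q ^ k / poch (-q) q k)

/-- `R_n(q)`. -/
noncomputable def R (n : ℕ) : RatFunc ℚ :=
  ∑ k ∈ range n, q ^ (2 * k) * poch q (q ^ 2) k ^ 2 / poch (q ^ 2) (q ^ 2) k ^ 2

/-- An integer polynomial in `q` as a rational function. -/
noncomputable def rf (P : ℤ[X]) : RatFunc ℚ :=
  algebraMap ℚ[X] (RatFunc ℚ) (P.map (Int.castRingHom ℚ))

/-- `A ≡ B (mod Φ_n(q) ^ m)`: the difference is `P / Q` with integer polynomials `P` and `Q`,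
where `Φ_n(q) ^ m` divides `P` and `Q` is coprime to `Φ_n(q)`. -/
def Cong (n m : ℕ) (A B : RatFunc ℚ) : Prop := ∃ P Q : ℤ[X], cyclotomic n ℤ ^ m ∣ P ∧
  IsCoprime (Q.map (Int.castRingHom ℚ)) (cyclotomic n ℚ) ∧ A - B = rf P / rf Q

/-- For every odd `n`, `L_n(q) ≡ R_n(q) (mod Φ_n(q) ^ 3)`. -/
theorem result (n : ℕ) (hn : Odd n) : Cong n 3 (L n) (R n) := by
  obtain ⟨s, rfl⟩ := hn
  obtain ⟨P, Q, h1, h2, h3⟩ := Q278.VE.main s
  refine ⟨P, Q, h1, h2, ?_⟩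
  unfold rf
  rw [← h3]
  unfold L R cb poch Q278.VA.T Q278.VA.tt Q278.VA.po
  congr 1
  apply sum_congr rfl
  intro k _
  have e : q ^ 2 / q = q := by
    rw [pow_two, mul_div_assoc, div_self RatFunc.X_ne_zero, mul_one]
  rw [e, pow_mul, mul_assoc, ← pow_two]

end Pool.Agent.Results.MP_781342_nt.Full
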